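import Mathlib
import Pool.Agent.Split.Main

set_option autoImplicit false

open Submodule

namespace Pool.Agent.Results.MP_59a3d4_lc.NoGoodSplitting

/-- `B₁`, `B₂` is a good splitting of `B` with respect to `(V₁, V₂)`. -/
def GoodSplitting {F R : Type*} [Field F] [AddCommGroup R] [Module F R]
    (V₁ V₂ : Submodule F R) (B B₁ B₂ : Set R) : Prop :=
  B₁ ∪ B₂ = B ∧ Disjoint B₁ B₂ ∧ IsCompl V₁ (span F B₁) ∧ IsCompl V₂ (span F B₂)

/-- The finitely supported vector coded by a finite list of (index, coefficient) pairs. -/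
noncomputable def vec {F : Type*} [Field F] (l : List (ℕ × F)) : ℕ →₀ F :=
  (l.map fun p => Finsupp.single p.1 p.2).sum

/-- The standard basis of the space of finitely supported sequences. -/
def stdBasis (F : Type*) [Field F] : Set (ℕ →₀ F) := Set.range fun n => Finsupp.single n 1

theorem result : ∀ (F : Type*) [Field F], ∃ V₁ V₂ : Submodule F (ℕ →₀ F),
    IsCompl V₁ V₂ ∧
    (¬ ∃ B₁ B₂ : Set (ℕ →₀ F), GoodSplitting V₁ V₂ (stdBasis F) B₁ B₂) ∧
    (∀ [Primcodable F], Computable₂ (fun a b : F => a + b) →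
      ComputablePred (fun l : List (ℕ × F) => vec l ∈ V₁) ∧
      ComputablePred (fun l : List (ℕ × F) => vec l ∈ V₂) ∧
      ComputablePred (fun l : List (ℕ × F) => vec l ∈ stdBasis F)) := by
  intro F _
  refine ⟨LinearMap.ker (Split.P F), LinearMap.range (Split.P F), Split.isCompl F, ?_, ?_⟩
  · rintro ⟨B₁, B₂, hB, hd, h1, h2⟩
    exact Split.no_split F B₁ B₂ hB hd h1 h2
  · intro _ hadd
    exact ⟨Split.comp_ker hadd, Split.comp_range hadd, Split.comp_basis hadd⟩

end Pool.Agent.Results.MP_59a3d4_lc.NoGoodSplitting
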